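import Pool.Agent.L7h42.GC.Meb

set_option autoImplicit false

/-! Project GC, part FIN: finitely generated models of any theory. -/

namespace Pool.Agent.L7h42.GC

open Set Function MeasureTheory FirstOrder FirstOrder.Language
open Pool.Agent.L7h71.GC
open Pool.Agent.L7h71.GB (pt)
open Pool.Agent.H533R2.VO (RS RIso)
open Pool.Agent.L7h66.UA (XS XIso XDich)
open Pool.Agent.W889.VC (BP)
open Pool.Agent.W889.FO (SIso)
open Pool.Agent.W889.FO.St0 (LF W D countable_LF iso_down iso_up)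
open Pool.Agent.R617.VT (ar dc Md md_meas Nrm siso_of_iso iso_of_siso)

variable {L : FirstOrder.Language.{0, 0}}

theorem pt_map (l : List ℕ) (hl : l ≠ []) (f : ℕ → ℕ) (s : ℕ) : pt (l.map f) s = f (pt l s) := by
  obtain ⟨a, l, rfl⟩ := List.exists_cons_of_ne_nil hl
  unfold pt
  simp only [List.map_cons, List.headD_cons, List.getD_eq_getElem?_getD]
  rw [← List.map_cons, List.getElem?_map]
  cases (a :: l)[s]? <;> rfl

/-- an isomorphism preserves the values of terms -/
theorem tr_iso {S S' : L.Structure ℕ} (f : @FirstOrder.Language.Equiv L ℕ ℕ S S') (v : ℕ → ℕ)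
    (t : L.Term ℕ) :
    tr S' (fun i => @FirstOrder.Language.Equiv.toEquiv L ℕ ℕ S S' f (v i)) t =
      @FirstOrder.Language.Equiv.toEquiv L ℕ ℕ S S' f (tr S v t) :=
  @HomClass.realize_term L ℕ ℕ S S' ℕ _ _ _ f t v

theorem fr_iso {S S' : L.Structure ℕ} (f : @FirstOrder.Language.Equiv L ℕ ℕ S S') (v : ℕ → ℕ)
    (φ : L.Formula ℕ) :
    fr S' (fun i => @FirstOrder.Language.Equiv.toEquiv L ℕ ℕ S S' f (v i)) φ ↔ fr S v φ :=
  @StrongHomClass.realize_formula L ℕ ℕ S S' ℕ _ _ _ f φ v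

theorem gen_iso {S S' : L.Structure ℕ} (f : @FirstOrder.Language.Equiv L ℕ ℕ S S') (v : ℕ → ℕ) :
    (∀ p, Gen S' (fun i => @FirstOrder.Language.Equiv.toEquiv L ℕ ℕ S S' f (v i)) p) ↔
      ∀ p, Gen S v p := by
  let σ : ℕ ≃ ℕ := @FirstOrder.Language.Equiv.toEquiv L ℕ ℕ S S' f
  constructor
  · intro h p
    obtain ⟨t, ht⟩ := h (σ p)
    rw [tr_iso f] at ht
    exact ⟨t, σ.injective ht⟩
  · intro h p
    obtain ⟨t, ht⟩ := h (σ.symm p)
    refine ⟨t, ?_⟩
    rw [tr_iso f, ht]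
    exact σ.apply_symm_apply p

open Classical in
/-- the invariants -/
noncomputable def JJ (E : ℕ → L.Formula ℕ) {e : (Σ n, (LF L).Relations n) → ℕ} (he : Injective e)
    (l : List ℕ) (y : RS (ar e)) : Bool × (ℕ → Bool) :=
  (decide (∀ p, Gen (D (dc he y)) (pt l) p),
    fun k => decide ((∀ p, Gen (D (dc he y)) (pt l) p) ∧ fr (D (dc he y)) (pt l) (E k)))

theorem s_FIN (hGEN : S_GEN) (hMEC : S_MEC) : S_FIN := by
  classical
  intro L hc e he T T' hT
  have hLF : Countable (Σ n, (LF L).Relations n) := countable_LF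
  obtain ⟨E, hE⟩ := exists_enum (L := L) hc
  obtain ⟨hM1, hM2, -, -⟩ := hMEC L hc E hE e he
  set B : Set (RS (ar e)) := {y | y ∈ Md he T' ∧ FGs (D (dc he y))} with hB
  have hBW : ∀ y ∈ B, W (dc he y) := fun y hy => ((hT _).1 hy.1.2).1
  have hBm : MeasurableSet B := by
    have h1 : B = Md he T' ∩ {y | W (dc he y) ∧ FGs (D (dc he y))} := by
      ext y
      constructor
      · intro hy
        exact ⟨hy.1, hBW y hy, hy.2⟩
      · rintro ⟨h1, -, h2⟩
        exact ⟨h1, h2⟩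
    rw [h1]
    exact (md_meas he T').inter hM2
  have hBs : StandardBorelSpace B := hBm.standardBorel
  -- measurability of the invariants
  have hG : ∀ l : List ℕ, MeasurableSet {y : B | ∀ p, Gen (D (dc he y.1)) (pt l) p} := by
    intro l
    have h1 : {y : B | ∀ p, Gen (D (dc he y.1)) (pt l) p} =
        ⋂ p, Subtype.val ⁻¹' {y : RS (ar e) | W (dc he y) ∧ Gen (D (dc he y)) (pt l) p} := by
      ext y
      simp only [mem_setOf_eq, mem_iInter, mem_preimage]
      exact ⟨fun h p => ⟨hBW y.1 y.2, h p⟩, fun h p => (h p).2⟩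
    rw [h1]
    exact MeasurableSet.iInter fun p => measurable_subtype_coe (hM1 (pt l) p)
  have hF : ∀ (l : List ℕ) (k : ℕ), MeasurableSet {y : B | fr (D (dc he y.1)) (pt l) (E k)} := by
    intro l k
    have h1 : {y : B | fr (D (dc he y.1)) (pt l) (E k)} =
        Subtype.val ⁻¹' {y : RS (ar e) | W (dc he y) ∧ fr (D (dc he y)) (pt l) (E k)} := by
      ext y
      simp only [mem_setOf_eq, mem_preimage]
      exact ⟨fun h => ⟨hBW y.1 y.2, h⟩, fun h => h.2⟩
    rw [h1]
    exact measurable_subtype_coe (bp_fr hc he (E k) (pt l))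
  have hJ : ∀ l : {l : List ℕ // l ≠ []}, Measurable fun y : B => JJ E he l.1 y.1 := by
    intro l
    refine Measurable.prodMk ?_ (measurable_pi_lambda _ fun k => ?_)
    · refine measurable_to_bool ?_
      have h1 : (fun y : B => decide (∀ p, Gen (D (dc he y.1)) (pt l.1) p)) ⁻¹' {true} =
          {y : B | ∀ p, Gen (D (dc he y.1)) (pt l.1) p} := by
        ext y
        simp
      rw [h1]
      exact hG l.1
    · refine measurable_to_bool ?_
      have h1 : (fun y : B => decide ((∀ p, Gen (D (dc he y.1)) (pt l.1) p) ∧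
          fr (D (dc he y.1)) (pt l.1) (E k))) ⁻¹' {true} =
          {y : B | ∀ p, Gen (D (dc he y.1)) (pt l.1) p} ∩
            {y : B | fr (D (dc he y.1)) (pt l.1) (E k)} := by
        ext y
        simp
      rw [h1]
      exact (hG l.1).inter (hF l.1 k)
  -- invariance
  have hinv : ∀ y y' : B, XIso (a := ar e) (K := fun _ => Bool) y.1 y'.1 →
      ∀ l : {l : List ℕ // l ≠ []}, ∃ l' : {l : List ℕ // l ≠ []},
        JJ E he l.1 y.1 = JJ E he l'.1 y'.1 := by
    intro y y' hyy l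
    have h1 : RIso y.1 y'.1 := hyy
    obtain ⟨f⟩ := iso_down (hBW _ y.2) (hBW _ y'.2) (siso_of_iso he h1)
    let σ : ℕ ≃ ℕ := @FirstOrder.Language.Equiv.toEquiv L ℕ ℕ (D (dc he y.1)) (D (dc he y'.1)) f
    refine ⟨⟨l.1.map σ, by simpa using l.2⟩, ?_⟩
    have h2 : pt (l.1.map σ) = fun i => σ (pt l.1 i) := funext fun i => pt_map l.1 l.2 σ i
    have h3 : (∀ p, Gen (D (dc he y'.1)) (pt (l.1.map σ)) p) ↔
        ∀ p, Gen (D (dc he y.1)) (pt l.1) p := by
      rw [h2]
      exact gen_iso f (pt l.1)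
    have h4 : ∀ k, fr (D (dc he y'.1)) (pt (l.1.map σ)) (E k) ↔
        fr (D (dc he y.1)) (pt l.1) (E k) := by
      intro k
      rw [h2]
      exact fr_iso f (pt l.1) (E k)
    unfold JJ
    refine Prod.ext ?_ (funext fun k => ?_)
    · exact decide_eq_decide.2 h3.symm
    · exact decide_eq_decide.2 (and_congr h3.symm (h4 k).symm)
  by_cases hcount : (⋃ l : {l : List ℕ // l ≠ []}, range fun y : B => JJ E he l.1 y.1).Countable
  · -- countably many types
    left
    let V := ⋃ l : {l : List ℕ // l ≠ []}, range fun y : B => JJ E he l.1 y.1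
    let Φ : Bool × (ℕ → Bool) → RS (ar e) := fun z =>
      if h : ∃ y : B, ∃ l : {l : List ℕ // l ≠ []}, JJ E he l.1 y.1 = z then h.choose.1
      else fun _ _ => false
    refine ⟨Φ '' V, hcount.image _, fun M hM => ?_⟩
    obtain ⟨l, hl, hgen⟩ := hM.2
    set z := JJ E he l M with hz
    have hex : ∃ y : B, ∃ l : {l : List ℕ // l ≠ []}, JJ E he l.1 y.1 = z :=
      ⟨⟨M, hM⟩, ⟨l, hl⟩, rfl⟩
    refine ⟨Φ z, mem_image_of_mem _ (mem_iUnion.2 ⟨⟨l, hl⟩, ⟨M, hM⟩, rfl⟩), ?_⟩
    have h1 : Φ z = hex.choose.1 := dif_pos hex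
    rw [h1]
    obtain ⟨l', hl'⟩ := hex.choose_spec
    set N : B := hex.choose with hN
    have h2 : ∀ p, Gen (D (dc he N.1)) (pt l'.1) p := by
      have h3 : (JJ E he l'.1 N.1).1 = (JJ E he l M).1 := by rw [hl', hz]
      exact (decide_eq_decide.1 h3).2 hgen
    have h3 : ∀ k, fr (D (dc he N.1)) (pt l'.1) (E k) ↔ fr (D (dc he M)) (pt l) (E k) := by
      intro k
      have h4 : (JJ E he l'.1 N.1).2 k = (JJ E he l M).2 k := by rw [hl', hz]
      have h5 := decide_eq_decide.1 h4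
      exact ⟨fun h => (h5.1 ⟨h2, h⟩).2, fun h => (h5.2 ⟨hgen, h⟩).2⟩
    obtain ⟨f, -⟩ := hGEN L (D (dc he N.1)) (D (dc he M)) (pt l'.1) (pt l) h2 hgen (by
      intro φ hφ
      obtain ⟨k, rfl⟩ := hE.2 φ hφ
      exact h3 k)
    have h6 : SIso (dc he N.1) (dc he M) := iso_up (hBW _ N.2) (hBW _ hM) ⟨f⟩
    have h7 : RIso N.1 M := iso_of_siso he N.2.1.1 hM.1.1 h6
    exact h7
  · right
    obtain ⟨h, hh1, hh2⟩ := Pool.Agent.H565R2.FO2.perfect_of_uncountable (Y := B)
      (X := RS (ar e)) (Z := Bool × (ℕ → Bool)) (ι := {l : List ℕ // l ≠ []})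
      (fun y => y.1) measurable_subtype_coe (fun l y => JJ E he l.1 y.1) hJ
      (fun y y' => XIso (a := ar e) (K := fun _ => Bool) y.1 y'.1) hinv hcount
    refine ⟨fun c => (h c).1, hh1, fun c => (h c).2, fun c d hcd => ?_⟩
    by_contra hne
    exact hh2 c d hne hcd

end Pool.Agent.L7h42.GC
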