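import Pool.Agent.L7h71.GC.Stm

set_option autoImplicit false

/-! Project GC, part MEB: measurability of the truth values of formulas. -/

namespace Pool.Agent.L7h42.GC

open Set Function MeasureTheory FirstOrder FirstOrder.Language
open Pool.Agent.L7h71.GC
open Pool.Agent.H533R2.VO (RS)
open Pool.Agent.W889.VC (BP)
open Pool.Agent.W889.FO (bp_realize bp_sentence countable_sentence ax_iff)
open Pool.Agent.W889.FO.St0 (LF W D countable_LF ax_W trans)
open Pool.Agent.R617.VT (ar dc)

variable {L : FirstOrder.Language.{0, 0}}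

theorem bp_at (a : ℕ → ℕ) (i : ℕ) (v : Fin (a i) → ℕ) : BP (fun x : RS a => x i v = true) := by
  have h1 : Measurable fun x : RS a => x i v :=
    (measurable_pi_apply v).comp (measurable_pi_apply i)
  exact h1 (measurableSet_singleton true)

theorem bp_dc {e : (Σ n, (LF L).Relations n) → ℕ} (he : Injective e) (n : ℕ)
    (R : (LF L).Relations n) (a : Fin n → ℕ) :
    BP (fun y : RS (ar e) => @Structure.RelMap (LF L) ℕ (dc he y) n R a) := bp_at _ _ _

theorem bp_W (hc : Countable L.Symbols) {e : (Σ n, (LF L).Relations n) → ℕ} (he : Injective e) :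
    BP (fun y : RS (ar e) => W (dc he y)) := by
  have : Countable (Σ n, (LF L).Relations n) := countable_LF
  have hsc : Countable (LF L).Sentence := countable_sentence
  obtain ⟨T, hT⟩ := ax_W L
  have hT' : Countable T := Subtype.countable
  have h3 : BP (fun y : RS (ar e) => ∀ φ : T, @Sentence.Realize (LF L) ℕ (dc he y) φ.1) :=
    BP.all fun φ => bp_sentence (fun n R v => bp_dc he n R v) φ.1
  refine h3.congr fun y => ?_
  rw [← hT, ax_iff]
  exact ⟨fun h φ hφ => h ⟨φ, hφ⟩, fun h φ => h φ.1 φ.2⟩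

/-- measurability for all formulas -/
theorem bp_fr (hc : Countable L.Symbols) {e : (Σ n, (LF L).Relations n) → ℕ} (he : Injective e)
    (φ : L.Formula ℕ) (v : ℕ → ℕ) :
    BP (fun y : RS (ar e) => W (dc he y) ∧ fr (D (dc he y)) v φ) := by
  obtain ⟨ψ, hψ⟩ := trans (L := L) (φ : L.BoundedFormula ℕ 0)
  have h1 : BP (fun y : RS (ar e) =>
      @Formula.Realize (LF L) ℕ (dc he y) _ ψ (Sum.elim v Fin.elim0)) :=
    bp_realize (fun n R a => bp_dc he n R a) ψ _ _
  refine ((bp_W hc he).and h1).congr fun y => ?_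
  have key : ∀ a b : Fin 0 → ℕ, @BoundedFormula.Realize L ℕ (D (dc he y)) _ _ φ v a ↔
      @BoundedFormula.Realize L ℕ (D (dc he y)) _ _ φ v b := by
    intro a b
    rw [Subsingleton.elim a b]
  constructor
  · rintro ⟨hW, h⟩
    exact ⟨hW, (key _ _).1 ((hψ _ hW _).1 h)⟩
  · rintro ⟨hW, h⟩
    exact ⟨hW, (hψ _ hW _).2 ((key _ _).1 h)⟩

theorem s_MEB : S_MEB := fun _ hc _ he φ _ v => bp_fr hc he φ v

end Pool.Agent.L7h42.GC
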